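import Pool.Agent.Helper92.BW.GoalsB

/-! # The frames of the algorithm (packet BW-FRA) -/

namespace Pool.Agent.Helper15.BW

open Pool.Agent.Helper81.CC Pool.Agent.Bin Pool.Agent.Helper92.VP Pool.Agent.Helper92.BW
open Pool.Agent.Helper92.FR hiding DepStmt

/-! ### Scalar products -/

theorem ip_lin {n m : ℕ} (x : Fin n → ℝ) (c : Fin m → ℝ) (y : Fin m → Fin n → ℝ) :
    ip x (fun i => ∑ l, c l * y l i) = ∑ l, c l * ip x (y l) := by
  unfold ip
  simp only [Finset.mul_sum]
  rw [Finset.sum_comm]
  refine Finset.sum_congr rfl fun l _ => Finset.sum_congr rfl fun i _ => ?_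
  ring

theorem ip_comb {n m : ℕ} (x w : Fin n → ℝ) (a : ℝ) (f : Fin n → ℝ) (β : Fin m → ℝ)
    (g : Fin m → Fin n → ℝ) (h : ∀ i, a * x i = f i - ∑ j, β j * g j i) :
    a * ip x w = ∑ i, f i * w i - ∑ j, β j * ip (g j) w := by
  unfold ip
  simp only [Finset.mul_sum]
  rw [Finset.sum_comm, ← Finset.sum_sub_distrib]
  refine Finset.sum_congr rfl fun i _ => ?_
  rw [← mul_assoc, h i, sub_mul, Finset.sum_mul]
  congr 1
  refine Finset.sum_congr rfl fun j _ => ?_
  ring

theorem ip_single {n : ℕ} (x : Fin n → ℝ) (v : Fin n) :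
    ip x (fun i => if i = v then 1 else 0) = x v := by
  unfold ip
  simp

theorem ip_neg_right {n : ℕ} (x y : Fin n → ℝ) : ip x (-y) = - ip x y := by
  unfold ip
  simp

theorem ip_zero_right {n : ℕ} (x : Fin n → ℝ) : ip x 0 = 0 := by
  unfold ip
  simp

theorem ip_zero_left {n : ℕ} (x : Fin n → ℝ) : ip 0 x = 0 := by
  unfold ip
  simp

theorem lv_map_range (n : ℕ) (f : ℕ → Qn) (j : Fin n) :
    lv n ((List.range n).map f) j = (f j).val := by
  unfold lv
  simp [List.getD_eq_getElem?_getD]

/-! ### Ancestors -/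

/-- If `c` and `j > c` are above `i` then `j` is above the parent of `c`. -/
theorem abv_par {P : ℕ → ℕ} (h0 : ∀ i, i ≤ P i) {i c j : ℕ} (hc : Abv P i c) (hj : Abv P i j)
    (hlt : c < j) : Abv P (P c) j := by
  obtain ⟨s, rfl⟩ := hc
  obtain ⟨t, rfl⟩ := hj
  have hmono : Monotone fun m => P^[m] i := by
    refine monotone_nat_of_le_succ fun m => ?_
    show P^[m] i ≤ P^[m + 1] i
    rw [Function.iterate_succ_apply']
    exact h0 _
  have hst : s < t := by
    by_contra hcon
    exact absurd (hmono (not_lt.mp hcon)) (not_le.mpr hlt)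
  refine ⟨t - (s + 1), ?_⟩
  rw [← Function.iterate_succ_apply' P s i, ← Function.iterate_add_apply]
  congr 1
  omega

theorem abv_le {P : ℕ → ℕ} (h0 : ∀ i, i ≤ P i) {i j : ℕ} (h : Abv P i j) : i ≤ j := by
  obtain ⟨t, rfl⟩ := h
  induction t with
  | zero => exact le_rfl
  | succ t ih => rw [Function.iterate_succ_apply']; exact ih.trans (h0 _)

theorem abv_trans_par {P : ℕ → ℕ} {i c : ℕ} (h : Abv P i c) : Abv P i (P c) := by
  obtain ⟨t, rfl⟩ := h
  exact ⟨t + 1, Function.iterate_succ_apply' P t i⟩

/-! ### Digits -/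

theorem digit_low {b e i k j : ℕ} (hb : 1 ≤ b) (hj : j < k) :
    (e + i * b ^ k) / b ^ j % b = e / b ^ j % b := by
  obtain ⟨d, rfl⟩ := Nat.exists_eq_add_of_lt hj
  have h1 : i * b ^ (j + d + 1) = b ^ j * (i * b ^ d * b) := by ring
  rw [h1, Nat.add_mul_div_left _ _ (by positivity), Nat.add_mul_mod_self_right]

theorem digit_top {b e i k : ℕ} (he : e < b ^ k) (hi : i < b) :
    (e + i * b ^ k) / b ^ k % b = i := by
  have h0 : 0 < b ^ k := by omega
  rw [Nat.add_mul_div_right _ _ h0, Nat.div_eq_of_lt he, zero_add, Nat.mod_eq_of_lt hi]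

theorem gq_val (G d : ℕ) (hG : 1 ≤ G) : (gq G d).val = ((d : ℝ) - G) / G := by
  have h1 : (invNat G).val = 1 / (G : ℝ) := by
    unfold invNat Qn.val
    simp only [BN.val_sub, BN.val_ofNat]
    have : ((G - 1 : ℕ) : ℝ) = (G : ℝ) - 1 := by push_cast [Nat.cast_sub hG]; ring
    simp [this]
  have h2 : ∀ m : ℕ, (qNat m).val = (m : ℝ) := fun m => by
    unfold qNat
    rw [Qn.val_ofBN, BN.val_ofNat]
  unfold gq
  rw [Qn.val_mul, Qn.val_sub, h1, h2, h2]
  ring

theorem ctr_val (G e j : ℕ) (hG : 1 ≤ G) :
    ctr G e j = (((e / (2 * G + 1) ^ j % (2 * G + 1) : ℕ) : ℝ) - G) / G := by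
  unfold ctr
  exact gq_val G _ hG

theorem ctr_small (G e j : ℕ) (hG : 1 ≤ G) (h : |ctr G e j| ≤ 1 / (2 * G)) : ctr G e j = 0 := by
  rw [ctr_val G e j hG] at h ⊢
  set d := e / (2 * G + 1) ^ j % (2 * G + 1)
  have hG' : (0 : ℝ) < G := by exact_mod_cast hG
  have h1 : |(d : ℝ) - G| ≤ 1 / 2 := by
    rw [abs_div, abs_of_pos hG', div_le_iff₀ hG'] at h
    calc |(d : ℝ) - G| ≤ 1 / (2 * G) * G := h
      _ = 1 / 2 := by field_simp
  have h2 : |((d : ℤ) - (G : ℤ) : ℤ)| < 1 := by
    have h3 : ((|((d : ℤ) - (G : ℤ) : ℤ)| : ℤ) : ℝ) < 1 := by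
      push_cast
      linarith
    exact_mod_cast h3
  have h4 : (d : ℤ) - (G : ℤ) = 0 := Int.abs_lt_one_iff.mp h2
  have h5 : (d : ℝ) - G = 0 := by exact_mod_cast h4
  rw [h5, zero_div]

/-! ### The frames -/

theorem lv_single {n : ℕ} (f : List Qn) (v : Fin n) :
    ip (lv n f) (fun i => if i = v then 1 else 0) = (f.getD v Qn.zero).val := by
  rw [ip_single]
  rfl

theorem fra (hfrv : FrvStmt) (hfrk : FrkStmt) (hbkv : BkvStmt) (htri : TriStmt)
    (habv : AbvStmt) : FraStmt := by
  intro n k par cr U G D hn hD hG hR hW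
  set P : ℕ → ℕ := fun x => par.getD x x with hP
  have hlen : par.length = n := hW.len
  have hP0 : ∀ i, i ≤ P i := by
    intro i
    by_cases hi : i < n
    · exact (hW.inc i hi).le
    · have : par.getD i i = i := by
        rw [List.getD_eq_getElem?_getD, List.getElem?_eq_none (by omega)]
        rfl
      exact le_of_eq this.symm
  have hchain : Chain P (lowS n cr) (aS n cr) := by
    refine ⟨hP0, fun i hi => hW.inc i hi, fun r j hj => ?_⟩
    exact (hW.chain r.1 r.2.1 j j.2 hj).2
  refine ⟨hchain, ?_⟩
  have hq : 1 ≤ qc n := by unfold qc; nlinarith [Nat.zero_le n]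
  have hG1 : 1 ≤ G := by
    rw [hG]
    have : 0 < 2 ^ (k + 1) * n * qc n * D := by positivity
    exact this
  have hGr : (0 : ℝ) < G := by exact_mod_cast hG1
  -- the frames
  have F := fun (v : ℕ) (hv : v < n) => hfrv n k v U (fam n par cr v) hv hR.lu hR.lv' hR.span
    (hW.len' v hv)
  have K := fun (v : ℕ) (hv : v < n) => hfrk n k v U (fam n par cr v) hv hR.lu hR.lv' hR.span
    (fun f hf => (hW.len' v hv f hf).1) (hW.rank v hv)
  have hg1 : ∀ (v : Fin n) (l : ℕ), l < k → ∀ j : Fin n,
      gv n (frS n k par cr U v) l j ≠ 0 → v < j := by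
    intro v l hl j hj
    by_contra hcon
    apply hj
    have h1 := (F v v.2).2.2.2.1 l hl (fun i => if i = j then 1 else 0) (by
      intro f hf
      rw [lv_single]
      exact (hW.len' v v.2 f hf).2 j (by
        have : j ≤ v := not_lt.mp hcon
        exact this))
    rw [ip_single] at h1
    exact h1
  have hown := fun (v : Fin n) => (F v v.2).2.2.2.2.2.2
  have hmpos := fun (v : Fin n) => (F v v.2).2.2.2.2.1
  -- the value of the own functional
  have hg3 : ∀ (v : Fin n) (w : Fin n → ℝ), (∀ l : Fin k, ip (gS n k par cr U v l) w = 0) →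
      mS n k par cr U v * ip (oS n k par cr U v) w = w v := by
    intro v w hw
    obtain ⟨β, hβ⟩ := hown v
    have h1 := ip_comb (oS n k par cr U v) w (mS n k par cr U v)
      (fun x : Fin n => if x.val = v then 1 else 0) β (fun j => gS n k par cr U v j) hβ
    rw [h1]
    have h2 : ∑ j, β j * ip (gS n k par cr U v j) w = 0 :=
      Finset.sum_eq_zero fun j _ => by rw [hw j, mul_zero]
    rw [h2, sub_zero]
    rw [Finset.sum_eq_single v]
    · simp
    · intro b _ hb
      have : b.val ≠ v.val := fun h => hb (Fin.ext h)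
      simp [this]
    · intro h
      exact absurd (Finset.mem_univ v) h
  -- the restriction of a row
  have hfamv : ∀ (v : Fin n) (r : Ix n cr) (w : Fin n → ℝ), Abv P (lowS n cr r) v →
      ∃ f ∈ fam n par cr v, ip (lv n f) w = ∑ j, (if v < j then aS n cr r j * w j else 0) := by
    intro v r w hr
    refine ⟨(List.range n).map fun j => if v.val < j then r.1.1.getD j Qn.zero else Qn.zero, ?_, ?_⟩
    · unfold fam
      rw [List.mem_map]
      refine ⟨r.1, ?_, rfl⟩
      rw [List.mem_filter]
      refine ⟨r.2.1, ?_⟩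
      exact (habv.1 n par hlen (fun i hi => hW.inc i hi) (lowr n r.1) r.2.2.le v v.2).2 hr
    · unfold ip
      refine Finset.sum_congr rfl fun j _ => ?_
      rw [lv_map_range]
      by_cases h : v < j
      · have h' : v.val < j.val := h
        simp only [h, h', if_true]
        rfl
      · have h' : ¬ v.val < j.val := h
        simp only [h, h', if_false, Qn.val_zero, zero_mul]
  have hg2 : ∀ (v : Fin n) (w : Fin n → ℝ), (∀ l : Fin k, ip (gS n k par cr U v l) w = 0) →
      ∀ r : Ix n cr, Abv P (lowS n cr r) v →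
      ∑ j, (if v < j then aS n cr r j * w j else 0) = 0 := by
    intro v w hw r hr
    obtain ⟨f, hf, hfw⟩ := hfamv v r w hr
    rw [← hfw]
    exact K v v.2 w (fun j hj => hw ⟨j, hj⟩) f hf
  have hg3' : ∀ (v : Fin n) (w : Fin n → ℝ), (∀ l : Fin k, ip (gS n k par cr U v l) w = 0) →
      ip (oS n k par cr U v) w = 0 → w v = 0 := by
    intro v w hw ho
    rw [← hg3 v w hw, ho, mul_zero]
  -- all rows are satisfied
  have hall : ∀ u ∈ PS (aS n cr) (sS n cr) 1, ∀ r ∈ cr, -r.2.val ≤ ip (lv n r.1) u := by
    intro u hu r hr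
    by_cases hlow : lowr n r < n
    · have := hu ⟨r, hr, hlow⟩
      rw [one_mul] at this
      exact this
    · have h0 : ip (lv n r.1) u = 0 := by
        unfold ip
        refine Finset.sum_eq_zero fun j _ => ?_
        have : (r.1.getD j Qn.zero).val = 0 := (habv.2 n r).2.2 j (by omega)
        show (r.1.getD j Qn.zero).val * u j = 0
        rw [this, zero_mul]
      rw [h0]
      have := hR.s0 r hr
      linarith
  have hbound : ∀ (v : Fin n) (j : ℕ), j ≤ k → ∀ u ∈ PS (aS n cr) (sS n cr) 1,
      |ip (gv n (frS n k par cr U v) j) u| ≤ 1 := by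
    intro v j hj u hu
    obtain ⟨b, hb0, hb1, hbu⟩ := hR.hull u (hall u hu)
    have h1 : u = fun l => ∑ i : Fin (n + 1), b i * lv n (U.getD i []) l := funext hbu
    rw [h1, ip_lin _ b (fun i => lv n (U.getD i []))]
    calc |∑ l, b l * ip (gv n (frS n k par cr U v) j) (lv n (U.getD l []))|
        ≤ ∑ l, |b l * ip (gv n (frS n k par cr U v) j) (lv n (U.getD l []))| :=
          Finset.abs_sum_le_sum_abs _ _
      _ ≤ ∑ l, b l := by
          refine Finset.sum_le_sum fun l _ => ?_
          rw [abs_mul, abs_of_nonneg (hb0 l)]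
          have := (F v v.2).2.1 j hj l
          exact mul_le_of_le_one_right (hb0 l) this
      _ = 1 := hb1
  -- the rows at the points of the frame
  have hyrow : ∀ (v : Fin n) (l : ℕ), l ≤ k → ∀ r ∈ cr,
      |ip (lv n r.1) (yv n (frS n k par cr U v) l)| ≤ n * qc n * r.2.val := by
    intro v l hl r hr
    have hs := hR.s0 r hr
    have hn1 : (1 : ℝ) ≤ n := by exact_mod_cast hn
    have hq1 : (1 : ℝ) ≤ qc n := by exact_mod_cast hq
    have hqs : 0 ≤ (qc n : ℝ) * r.2.val := by positivity
    have hlow : ∀ i : Fin (n + 1), -(qc n * r.2.val) ≤ ip (lv n r.1) (lv n (U.getD i [])) := by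
      intro i
      have := hR.inner i r hr
      rw [le_div_iff₀ (by linarith)] at this
      linarith
    have hlow' : ∀ i : Fin (n + 1),
        -(n * qc n * r.2.val) ≤ ip (lv n r.1) (lv n (U.getD i [])) := by
      intro i
      have := hlow i
      nlinarith
    have hup : ∀ i : Fin (n + 1),
        ip (lv n r.1) (lv n (U.getD i [])) ≤ n * qc n * r.2.val := by
      intro i
      have h1 : ∑ i' : Fin (n + 1), ip (lv n r.1) (lv n (U.getD i' [])) = 0 := by
        have h2 := ip_lin (lv n r.1) (fun _ : Fin (n + 1) => (1 : ℝ))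
          (fun i' => lv n (U.getD i' []))
        simp only [one_mul] at h2
        rw [← h2]
        have h3 : (fun l => ∑ i' : Fin (n + 1), lv n (U.getD i' []) l) = 0 := by
          funext l
          exact hR.cent l
        rw [h3, ip_zero_right]
      have h4 : ip (lv n r.1) (lv n (U.getD i [])) =
          - ∑ i' ∈ Finset.univ.erase i, ip (lv n r.1) (lv n (U.getD i' [])) := by
        rw [← Finset.add_sum_erase _ _ (Finset.mem_univ i)] at h1
        linarith
      rw [h4]
      have h5 : ∑ i' ∈ Finset.univ.erase i, -(qc n * r.2.val) ≤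
          ∑ i' ∈ Finset.univ.erase i, ip (lv n r.1) (lv n (U.getD i' [])) :=
        Finset.sum_le_sum fun i' _ => hlow i'
      rw [Finset.sum_const, Finset.card_erase_of_mem (Finset.mem_univ i), Finset.card_univ,
        Fintype.card_fin, Nat.add_sub_cancel, nsmul_eq_mul] at h5
      linarith
    rcases (F v v.2).2.2.1 l hl with h | ⟨i, h | h⟩
    · have h' : yv n (frS n k par cr U v) l = 0 := h
      rw [h', ip_zero_right, abs_zero]
      positivity
    · have h' : yv n (frS n k par cr U v) l = lv n (U.getD i []) := h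
      rw [h', abs_le]
      exact ⟨hlow' i, hup i⟩
    · have h' : yv n (frS n k par cr U v) l = -lv n (U.getD i []) := h
      rw [h', ip_neg_right, abs_neg, abs_le]
      exact ⟨hlow' i, hup i⟩
  have hyg : ∀ (v : Fin n) (j l : ℕ), j ≤ k → l ≤ k →
      |ip (gv n (frS n k par cr U v) j) (yv n (frS n k par cr U v) l)| ≤ 1 := by
    intro v j l hj hl
    rcases (F v v.2).2.2.1 l hl with h | ⟨i, h | h⟩
    · have h' : yv n (frS n k par cr U v) l = 0 := h
      rw [h', ip_zero_right, abs_zero]
      exact zero_le_one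
    · have h' : yv n (frS n k par cr U v) l = lv n (U.getD i []) := h
      rw [h']
      exact (F v v.2).2.1 j hj i
    · have h' : yv n (frS n k par cr U v) l = -lv n (U.getD i []) := h
      rw [h', ip_neg_right, abs_neg]
      exact (F v v.2).2.1 j hj i
  refine
    { g1 := fun v l j h => hg1 v l l.2 j h
      o1 := ?_
      m1 := ?_
      g2 := hg2
      g3 := hg3'
      g4 := ?_
      g5 := fun v u hu => ⟨fun l => hbound v l l.2.le u hu, hbound v k le_rfl u hu⟩
      g6 := ?_
      x1 := ?_ }
  · -- o1
    intro v j hj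
    by_contra hcon
    have hjv : j < v := not_le.mp hcon
    apply hj
    have h1 := hg3 v (fun i => if i = j then 1 else 0) (by
      intro l
      rw [ip_single]
      by_contra h0
      exact absurd (hg1 v l l.2 j h0) (not_lt.mpr hjv.le))
    rw [ip_single] at h1
    have h2 : (if v = j then (1 : ℝ) else 0) = 0 := if_neg (ne_of_gt hjv)
    rw [h2] at h1
    rcases mul_eq_zero.mp h1 with h | h
    · exact absurd h (ne_of_gt (hmpos v))
    · exact h
  · -- m1
    intro v
    refine ⟨hmpos v, ?_⟩
    have h1 := hg3 v (fun i => if i = v then 1 else 0) (by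
      intro l
      rw [ip_single]
      by_contra h0
      exact absurd (hg1 v l l.2 v h0) (lt_irrefl v))
    rw [ip_single] at h1
    simpa using h1
  · -- g4
    intro v w hw ho c hc l
    have hcv : (c : ℕ) < v := by
      have := hW.inc c c.2
      have h2 : P c = v := hc
      rw [← h2]
      exact this
    refine (F c c.2).2.2.2.1 l l.2 w ?_
    intro f hf
    have hf' := hf
    unfold fam at hf'
    rw [List.mem_map] at hf'
    obtain ⟨r, hr, rfl⟩ := hf'
    rw [List.mem_filter] at hr
    obtain ⟨hrc, hrab⟩ := hr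
    have hlown : lowr n r ≤ n := (habv.2 n r).1
    have hab : Above par (lowr n r) c :=
      (habv.1 n par hlen (fun i hi => hW.inc i hi) (lowr n r) hlown c c.2).1 hrab
    have hlow : lowr n r < n := lt_of_le_of_lt (abv_le hP0 hab) c.2
    let r' : Ix n cr := ⟨r, hrc, hlow⟩
    have hab' : Abv P (lowS n cr r') c := hab
    have habv' : Abv P (lowS n cr r') v := by
      have := abv_trans_par hab'
      have h2 : P c = v := hc
      rw [h2] at this
      exact this
    have h2 := hg2 v w hw r' habv'
    have h3 := hg3' v w hw ho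
    calc ip (lv n ((List.range n).map fun j => if c.val < j then r.1.getD j Qn.zero else Qn.zero)) w
        = ∑ j, (if v < j then aS n cr r' j * w j else 0) := by
          unfold ip
          refine Finset.sum_congr rfl fun j _ => ?_
          rw [lv_map_range]
          by_cases hcj : c.val < j.val
          · simp only [hcj, if_true]
            by_cases ha : aS n cr r' j = 0
            · have : (r.1.getD j Qn.zero).val = 0 := ha
              rw [this, ha]
              simp
            · have hj := hchain.2.2 r' j ha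
              have hj2 := abv_par hP0 hab' hj hcj
              have h4 : P c = v := hc
              rw [h4] at hj2
              have hvj : (v : ℕ) ≤ j := abv_le hP0 hj2
              rcases eq_or_lt_of_le hvj with h | h
              · have : v = j := Fin.ext h
                subst this
                rw [h3, mul_zero, if_neg (lt_irrefl v)]
              · have : v < j := h
                rw [if_pos this]
                rfl
          · have : ¬ v < j := by
              intro h
              have h' : v.val < j.val := h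
              omega
            simp only [hcj, this, if_false, Qn.val_zero, zero_mul]
      _ = 0 := h2
  · -- g6
    intro v w hgw how
    obtain ⟨c, hc1, hc2⟩ := htri n (k + 1) (fun j => gv n (frS n k par cr U v) j)
      (fun j => yv n (frS n k par cr U v) j)
      (fun j => (F v v.2).1.diag j j.2) (fun j l hl => (F v v.2).1.low j j.2 l hl)
      (fun j l => hyg v j l (by omega) (by omega))
      (fun j => (D : ℝ) * ip (gv n (frS n k par cr U v) j) w) ((D : ℝ) * (1 / (2 * G)))
      (by positivity) (by
        intro j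
        rw [abs_mul, abs_of_nonneg (by positivity : (0 : ℝ) ≤ D)]
        refine mul_le_mul_of_nonneg_left ?_ (by positivity)
        by_cases hj : j.val < k
        · exact hgw ⟨j, hj⟩
        · have : j.val = k := by omega
          rw [this]
          exact how) (by
        intro j hj
        have hj' : gv n (frS n k par cr U v) j = 0 := hj
        show (D : ℝ) * ip (gv n (frS n k par cr U v) j) w = 0
        rw [hj', ip_zero_left, mul_zero])
    refine ⟨fun x => ∑ l, c l * yv n (frS n k par cr U v) l x, ?_, fun l => ?_, ?_⟩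
    · intro r
      have hs := hR.s0 r.1 r.2.1
      have hn1 : (1 : ℝ) ≤ n := by exact_mod_cast hn
      have hq1 : (1 : ℝ) ≤ qc n := by exact_mod_cast hq
      have hD1 : (1 : ℝ) ≤ D := by exact_mod_cast hD
      have h1 : |ip (aS n cr r) (fun x => ∑ l, c l * yv n (frS n k par cr U v) l x)| ≤
          (∑ l, |c l|) * (n * qc n * r.1.2.val) := by
        have h0 := ip_lin (aS n cr r) c (fun l : Fin (k + 1) => yv n (frS n k par cr U v) l)
        rw [h0, Finset.sum_mul]
        refine (Finset.abs_sum_le_sum_abs _ _).trans (Finset.sum_le_sum fun l _ => ?_)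
        rw [abs_mul]
        refine mul_le_mul_of_nonneg_left ?_ (abs_nonneg _)
        exact hyrow v l (by omega) r.1 r.2.1
      have h2 : (∑ l, |c l|) * (n * qc n) ≤ 1 := by
        have h3 : (G : ℝ) = 2 ^ (k + 1) * n * qc n * D := by rw [hG]; push_cast; ring
        have h4 : (∑ l, |c l|) ≤ 2 ^ (k + 1) * ((D : ℝ) * (1 / (2 * G))) := by
          refine hc2.trans ?_
          have : (0 : ℝ) ≤ (D : ℝ) * (1 / (2 * G)) := by positivity
          nlinarith
        calc (∑ l, |c l|) * (n * qc n) ≤ 2 ^ (k + 1) * ((D : ℝ) * (1 / (2 * G))) * (n * qc n) :=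
              mul_le_mul_of_nonneg_right h4 (by positivity)
          _ = 1 / 2 := by
              rw [h3]
              have hn0 : (n : ℝ) ≠ 0 := ne_of_gt (by linarith)
              have hq0 : (qc n : ℝ) ≠ 0 := ne_of_gt (by linarith)
              have hD0 : (D : ℝ) ≠ 0 := ne_of_gt (by linarith)
              field_simp
          _ ≤ 1 := by norm_num
      have h5 : (∑ l, |c l|) * (n * qc n * r.1.2.val) ≤ r.1.2.val := by
        calc (∑ l, |c l|) * (n * qc n * r.1.2.val)
            = ((∑ l, |c l|) * (n * qc n)) * r.1.2.val := by ring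
          _ ≤ 1 * r.1.2.val := mul_le_mul_of_nonneg_right h2 hs
          _ = r.1.2.val := one_mul _
      have h6 := (abs_le.mp (h1.trans h5)).1
      show -(1 * sS n cr r) ≤ _
      rw [one_mul]
      exact h6
    · have := hc1 ⟨l, by omega⟩
      exact this.symm
    · have := hc1 ⟨k, by omega⟩
      exact this.symm
  · -- x1
    intro v e i hi ⟨u, hu⟩
    have hT := (F v v.2).1
    have hz : (zerov n).length = n := by unfold zerov; simp
    have hB := (hbkv n (k + 1) G (e + i * (2 * G + 1) ^ k) (frS n k par cr U v) (zerov n) hT hz).2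
    refine ⟨fun l => ?_, ?_⟩
    · have hd : ctr G (e + i * (2 * G + 1) ^ k) l = ctrS k G e l := by
        unfold ctrS
        rw [ctr_val _ _ _ hG1, ctr_val _ _ _ hG1, digit_low (by omega) l.2]
      by_cases h0 : gv n (frS n k par cr U v) l = 0
      · have h1 : gS n k par cr U v l = 0 := h0
        have h2 := hu l
        rw [h1, ip_zero_left, zero_sub, abs_neg] at h2
        rw [h1, ip_zero_left]
        exact (ctr_small G e l hG1 h2).symm
      · rw [← hd]
        exact hB l (by omega) h0
    · have hd : ctr G (e + i * (2 * G + 1) ^ k) k = ((i : ℝ) - G) / G := by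
        rw [ctr_val _ _ _ hG1, digit_top e.2 hi]
      rw [← hd]
      exact hB k (by omega) (F v v.2).2.2.2.2.2.1

end Pool.Agent.Helper15.BW
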