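import Pool.Agent.Helper92.BW.GoalsA

/-! # The messages are measurable (packet BW-MES) -/

namespace Pool.Agent.Helper15.BW

open MeasureTheory Pool.Agent.Helper92.BW
open scoped ENNReal

theorem measurable_ind {n : ℕ} {ι : Type} (a : ι → Fin n → ℝ) (s : ι → ℝ) (τ : ℝ) (r : ι) :
    Measurable (ind a s τ r) := by
  classical
  have h : ind a s τ r = Set.indicator {u : Fin n → ℝ | -(τ * s r) ≤ ip (a r) u}
      (fun _ => (1 : ℝ≥0∞)) := by
    funext u
    simp only [ind, Set.indicator_apply, Set.mem_ofPred_eq]
  rw [h]
  refine Measurable.indicator measurable_const ?_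
  refine measurableSet_le measurable_const ?_
  unfold ip
  exact Finset.measurable_sum _ fun j _ => (measurable_pi_apply j).const_mul _

theorem measurable_upd {n : ℕ} (v : Fin n) :
    Measurable (fun p : (Fin n → ℝ) × ℝ => Function.update p.1 v p.2) := by
  rw [measurable_pi_iff]
  intro j
  by_cases h : j = v
  · subst h
    simpa using measurable_snd
  · simp only [Function.update_of_ne h]
    exact (measurable_pi_apply j).comp measurable_fst

theorem mes : MesStmt := by
  intro n ι _ par low a s τ v
  induction hv : v.val using Nat.strong_induction_on generalizing v with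
  | _ k ih =>
    have h : msg par low a s τ v = fun u : Fin n → ℝ => ∫⁻ t : ℝ,
        (fun p : (Fin n → ℝ) × ℝ =>
          (∏ r ∈ Finset.univ.filter (fun r => low r = v),
            ind a s τ r (Function.update p.1 v p.2)) *
          ∏ c : Ch par v, msg par low a s τ c.1 (Function.update p.1 v p.2)) (u, t) := by
      funext u
      exact msg_eq par low a s τ v u
    have hF : Measurable (fun p : (Fin n → ℝ) × ℝ =>
          (∏ r ∈ Finset.univ.filter (fun r => low r = v),
            ind a s τ r (Function.update p.1 v p.2)) *
          ∏ c : Ch par v, msg par low a s τ c.1 (Function.update p.1 v p.2)) := by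
      refine Measurable.mul ?_ ?_
      · exact Finset.measurable_prod _ fun r _ =>
          (measurable_ind a s τ r).comp (measurable_upd v)
      · refine Finset.measurable_prod _ fun c _ => ?_
        have hc : c.1.val < k := hv ▸ c.2.1
        exact (ih c.1.val hc c.1 rfl).comp (measurable_upd v)
    rw [h]
    exact hF.lintegral_prod_right' (ν := volume)

end Pool.Agent.Helper15.BW
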